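import Pool.Agent.Q234.PE.Stm
import Pool.Agent.Q208.PL.Du

/-!
# Project PE, job DW: solvability with bounds
-/

set_option autoImplicit false

open scoped BigOperators Matrix
open Finset Pool.Agent.TH235.PP

namespace Pool.Agent.Q285.PE.DW

open Pool.Agent.Q234.PL Pool.Agent.Q234.PE Pool.Agent.Q208.PL.Du

/-- solvability, with the preimage -/
theorem solve {K m : ℕ} {κ : ℝ} {R : Matrix (Fin K) (Fin K) ℝ}
    (h : ∀ x y : Fin K → ℝ, (∀ i : Fin K, m ≤ (i : ℕ) → x i = 0 ∧ y i = 0) →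
      x ⬝ᵥ x + y ⬝ᵥ y ≤ κ ^ 2 * ((Rᵀ *ᵥ x + R *ᵥ y) ⬝ᵥ (Rᵀ *ᵥ x + R *ᵥ y)))
    (p r : Fin K → ℝ) (hpr : ∀ i : Fin K, m ≤ (i : ℕ) → p i = 0 ∧ r i = 0) :
    ∃ x y : Fin K → ℝ, (∀ i : Fin K, m ≤ (i : ℕ) → x i = 0 ∧ y i = 0) ∧
      (∀ i : Fin K, (i : ℕ) < m → (R *ᵥ (Rᵀ *ᵥ x + R *ᵥ y)) i = p i ∧
        (Rᵀ *ᵥ (Rᵀ *ᵥ x + R *ᵥ y)) i = r i) ∧
      (Rᵀ *ᵥ x + R *ᵥ y) ⬝ᵥ (Rᵀ *ᵥ x + R *ᵥ y) ≤ κ ^ 2 * (p ⬝ᵥ p + r ⬝ᵥ r) := by
  have hinj : Function.Injective (Phi m R) := by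
    rw [← LinearMap.ker_eq_bot, LinearMap.ker_eq_bot']
    intro v hv
    have hsupp : ∀ i : Fin K, m ≤ (i : ℕ) → v.1 i = 0 ∧ v.2 i = 0 := by
      intro i hi
      have h1 := Phi_high R v i hi
      rw [hv] at h1
      exact ⟨h1.1.symm, h1.2.symm⟩
    have h1 := norm_adj R v hsupp
    rw [hv] at h1
    simp only [Prod.fst_zero, Prod.snd_zero, dotProduct_zero, add_zero] at h1
    have h2 := h v.1 v.2 hsupp
    have e1 : adj m R v = Rᵀ *ᵥ v.1 + R *ᵥ v.2 := by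
      rw [adj_apply, cut_supp (fun i hi => (hsupp i hi).1), cut_supp (fun i hi => (hsupp i hi).2)]
    rw [← e1, h1, mul_zero] at h2
    have n1 : 0 ≤ v.1 ⬝ᵥ v.1 := self_nonneg _
    have n2 : 0 ≤ v.2 ⬝ᵥ v.2 := self_nonneg _
    have z1 : v.1 ⬝ᵥ v.1 = 0 := by linarith
    have z2 : v.2 ⬝ᵥ v.2 = 0 := by linarith
    exact Prod.ext (dotProduct_self_eq_zero.mp z1) (dotProduct_self_eq_zero.mp z2)
  have hsurj : Function.Surjective (Phi m R) := LinearMap.injective_iff_surjective.mp hinj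
  obtain ⟨v, hv⟩ := hsurj (p, r)
  have hsupp : ∀ i : Fin K, m ≤ (i : ℕ) → v.1 i = 0 ∧ v.2 i = 0 := by
    intro i hi
    have h1 := Phi_high R v i hi
    rw [hv] at h1
    simp only at h1
    exact ⟨h1.1.symm.trans (hpr i hi).1, h1.2.symm.trans (hpr i hi).2⟩
  have e1 : adj m R v = Rᵀ *ᵥ v.1 + R *ᵥ v.2 := by
    rw [adj_apply, cut_supp (fun i hi => (hsupp i hi).1), cut_supp (fun i hi => (hsupp i hi).2)]
  refine ⟨v.1, v.2, hsupp, ?_, ?_⟩
  · intro i hi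
    have h1 := Phi_low R v i hi
    rw [hv, e1] at h1
    exact ⟨h1.1.symm, h1.2.symm⟩
  · have h1 := norm_adj R v hsupp
    rw [hv] at h1
    simp only at h1
    have h2 := h v.1 v.2 hsupp
    rw [← e1] at h2 ⊢
    have h3 := cs v.1 v.2 p r
    rw [← h1] at h3
    set W : ℝ := adj m R v ⬝ᵥ adj m R v with hW
    have hW0 : 0 ≤ W := self_nonneg _
    have hc0 : 0 ≤ p ⬝ᵥ p + r ⬝ᵥ r := add_nonneg (self_nonneg _) (self_nonneg _)
    have h4 : W ^ 2 ≤ κ ^ 2 * W * (p ⬝ᵥ p + r ⬝ᵥ r) :=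
      h3.trans (mul_le_mul_of_nonneg_right h2 hc0)
    rcases hW0.eq_or_lt with h5 | h5
    · rw [← h5]
      positivity
    · have h6 : W * W ≤ W * (κ ^ 2 * (p ⬝ᵥ p + r ⬝ᵥ r)) := by nlinarith
      exact le_of_mul_le_mul_left h6 h5

theorem abs_ac_le (n : ℕ) : |ac n| ≤ 1 := by
  rcases n with _ | n
  · simp [ac]
  · unfold ac al
    rw [if_neg (Nat.succ_ne_zero n), abs_neg, Nat.add_sub_cancel, abs_of_nonneg (by positivity),
      div_le_one (by positivity)]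
    have h : (Nat.centralBinom n : ℝ) ≤ 4 ^ n := by
      have h1 : Nat.centralBinom n ≤ 2 ^ (2 * n) := Nat.choose_le_two_pow _ _
      rw [pow_mul] at h1
      exact_mod_cast h1
    have h2 : (1 : ℝ) ≤ 2 * ((n + 1 : ℕ) : ℝ) := by
      push_cast
      linarith [Nat.cast_nonneg (α := ℝ) n]
    have h3 : (0 : ℝ) ≤ 4 ^ n := by positivity
    nlinarith

theorem geo {lam : ℝ} (h0 : 0 < lam) (h1 : lam < 1) (k : ℕ) :
    ∑ i ∈ range k, lam ^ i ≤ 1 / (1 - lam) := by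
  have h : (∑ i ∈ range k, lam ^ i) * (1 - lam) = 1 - lam ^ k := by
    have := geom_sum_mul_neg lam k
    linarith
  rw [le_div_iff₀ (by linarith), h]
  linarith [pow_pos h0 k]

variable {N : ℕ} {ε lam : ℝ} {R : Matrix (Fin (N + 1)) (Fin (N + 1)) ℝ}

theorem entry_le (h0 : 0 < lam) (hR : RootOf N ε lam R) (i j : Fin (N + 1)) :
    |R i j| ≤ (if (j : ℕ) ≤ i then lam ^ ((i : ℕ) - j) else 0) +
      lam ^ (N + 1 - ((j : ℕ) - i)) := by
  have h := hR.entry i j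
  have h2 := abs_sub_abs_le_abs_sub (R i j)
    (if (j : ℕ) ≤ i then ac (i - j) * lam ^ ((i : ℕ) - j) else 0)
  have h3 : |(if (j : ℕ) ≤ i then ac (i - j) * lam ^ ((i : ℕ) - j) else 0)| ≤
      if (j : ℕ) ≤ i then lam ^ ((i : ℕ) - j) else 0 := by
    split_ifs
    · rw [abs_mul, abs_of_nonneg (pow_nonneg h0.le _)]
      exact mul_le_of_le_one_left (pow_nonneg h0.le _) (abs_ac_le _)
    · rw [abs_zero]
  linarith

/-- the columns -/
theorem col_le (h0 : 0 < lam) (h1 : lam < 1) (hR : RootOf N ε lam R) (j : Fin (N + 1)) :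
    ∑ i, |R i j| ≤ 3 / (1 - lam) := by
  have hp : 0 < 1 - lam := by linarith
  have a1 : ∑ i : Fin (N + 1), (if (j : ℕ) ≤ i then lam ^ ((i : ℕ) - j) else 0) ≤
      1 / (1 - lam) := by
    rw [Fin.sum_univ_eq_sum_range (fun i => if (j : ℕ) ≤ i then lam ^ (i - (j : ℕ)) else 0) (N + 1),
      ← sum_filter]
    have e : (range (N + 1)).filter (fun i => (j : ℕ) ≤ i) = Ico (j : ℕ) (N + 1) := by
      ext i
      simp only [mem_filter, mem_range, mem_Ico]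
      omega
    rw [e, sum_Ico_eq_sum_range]
    refine le_trans (le_of_eq (sum_congr rfl fun k _ => ?_)) (geo h0 h1 (N + 1 - j))
    rw [Nat.add_sub_cancel_left]
  have a2 : ∑ i : Fin (N + 1), lam ^ (N + 1 - ((j : ℕ) - i)) ≤ 1 / (1 - lam) := by
    refine le_trans (sum_le_sum fun (i : Fin (N + 1)) _ =>
      pow_le_pow_of_le_one h0.le h1.le (?_ : (i : ℕ) ≤ N + 1 - ((j : ℕ) - i))) ?_
    · have := i.2
      have := j.2
      omega
    · rw [Fin.sum_univ_eq_sum_range (fun i => lam ^ i) (N + 1)]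
      exact geo h0 h1 _
  have a3 : ∑ i, |R i j| ≤ ∑ i : Fin (N + 1), ((if (j : ℕ) ≤ i then lam ^ ((i : ℕ) - j) else 0) +
      lam ^ (N + 1 - ((j : ℕ) - i))) := sum_le_sum fun i _ => entry_le h0 hR i j
  rw [sum_add_distrib] at a3
  have a4 : 3 / (1 - lam) = 1 / (1 - lam) + 1 / (1 - lam) + 1 / (1 - lam) := by ring
  have a5 : 0 ≤ 1 / (1 - lam) := by positivity
  linarith

/-- the rows -/
theorem row_le (h0 : 0 < lam) (h1 : lam < 1) (hR : RootOf N ε lam R) (i : Fin (N + 1)) :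
    ∑ j, |R i j| ≤ 3 / (1 - lam) := by
  have hp : 0 < 1 - lam := by linarith
  have a1 : ∑ j : Fin (N + 1), (if (j : ℕ) ≤ i then lam ^ ((i : ℕ) - j) else 0) ≤
      1 / (1 - lam) := by
    rw [Fin.sum_univ_eq_sum_range (fun j => if j ≤ (i : ℕ) then lam ^ ((i : ℕ) - j) else 0) (N + 1),
      ← sum_filter]
    have e : (range (N + 1)).filter (fun j => j ≤ (i : ℕ)) = range ((i : ℕ) + 1) := by
      ext j
      have := i.2
      simp only [mem_filter, mem_range]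
      omega
    rw [e]
    have e2 := sum_range_reflect (fun k => lam ^ k) ((i : ℕ) + 1)
    refine le_trans (le_of_eq ?_) (geo h0 h1 ((i : ℕ) + 1))
    rw [← e2]
    refine sum_congr rfl fun k _ => ?_
    rw [Nat.add_sub_cancel]
  have a2 : ∑ j : Fin (N + 1), lam ^ (N + 1 - ((j : ℕ) - i)) ≤ 1 / (1 - lam) := by
    refine le_trans (sum_le_sum fun (j : Fin (N + 1)) _ =>
      pow_le_pow_of_le_one h0.le h1.le (?_ : N + 1 - 1 - (j : ℕ) ≤ N + 1 - ((j : ℕ) - i))) ?_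
    · omega
    · rw [Fin.sum_univ_eq_sum_range (fun j => lam ^ (N + 1 - 1 - j)) (N + 1),
        sum_range_reflect (fun k => lam ^ k) (N + 1)]
      exact geo h0 h1 _
  have a3 : ∑ j, |R i j| ≤ ∑ j : Fin (N + 1), ((if (j : ℕ) ≤ i then lam ^ ((i : ℕ) - j) else 0) +
      lam ^ (N + 1 - ((j : ℕ) - i))) := sum_le_sum fun j _ => entry_le h0 hR i j
  rw [sum_add_distrib] at a3
  have a4 : 3 / (1 - lam) = 1 / (1 - lam) + 1 / (1 - lam) + 1 / (1 - lam) := by ring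
  have a5 : 0 ≤ 1 / (1 - lam) := by positivity
  linarith

/-- the sum of the absolute values -/
theorem l1_mulVec {K : ℕ} {M : Matrix (Fin K) (Fin K) ℝ} {C : ℝ} (hM : ∀ j, ∑ i, |M i j| ≤ C)
    (x : Fin K → ℝ) : ∑ i, |(M *ᵥ x) i| ≤ C * ∑ j, |x j| := by
  calc ∑ i, |(M *ᵥ x) i| ≤ ∑ i, ∑ j, |M i j| * |x j| := by
        refine sum_le_sum fun i _ => ?_
        show |∑ j, M i j * x j| ≤ _
        refine (abs_sum_le_sum_abs _ _).trans (le_of_eq (sum_congr rfl fun j _ => abs_mul _ _))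
    _ = ∑ j, (∑ i, |M i j|) * |x j| := by
        rw [sum_comm]
        exact sum_congr rfl fun j _ => (sum_mul _ _ _).symm
    _ ≤ ∑ j, C * |x j| := sum_le_sum fun j _ => mul_le_mul_of_nonneg_right (hM j) (abs_nonneg _)
    _ = C * ∑ j, |x j| := (mul_sum _ _ _).symm

/-- vectors supported on `m` coordinates -/
theorem l1_sq {K m : ℕ} {x : Fin K → ℝ} (hx : ∀ i : Fin K, m ≤ (i : ℕ) → x i = 0) :
    (∑ i, |x i|) ^ 2 ≤ m * (x ⬝ᵥ x) := by
  have e1 : ∑ i, |x i| = ∑ i ∈ univ.filter (fun i : Fin K => (i : ℕ) < m), |x i| := by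
    rw [sum_filter]
    refine sum_congr rfl fun i _ => ?_
    split_ifs with h
    · rfl
    · rw [hx i (by omega), abs_zero]
  have e2 : x ⬝ᵥ x = ∑ i ∈ univ.filter (fun i : Fin K => (i : ℕ) < m), |x i| ^ 2 := by
    rw [sum_filter]
    show ∑ i, x i * x i = _
    refine sum_congr rfl fun i _ => ?_
    split_ifs with h
    · rw [sq_abs, sq]
    · rw [hx i (by omega), zero_mul]
  have hc : ((univ.filter (fun i : Fin K => (i : ℕ) < m)).card : ℝ) ≤ m := by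
    have : (univ.filter (fun i : Fin K => (i : ℕ) < m)).card ≤ (range m).card := by
      refine card_le_card_of_injOn (fun i => (i : ℕ)) ?_ ?_
      · intro i hi
        have := (mem_filter.1 hi).2
        exact mem_coe.2 (mem_range.2 this)
      · intro a _ b _ hab
        exact Fin.ext hab
    rw [card_range] at this
    exact_mod_cast this
  rw [e1, e2]
  refine (sq_sum_le_card_mul_sum_sq).trans (mul_le_mul_of_nonneg_right hc ?_)
  exact sum_nonneg fun i _ => sq_nonneg _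

/-- **DualW** -/
theorem main (h : StarG) : DualW := by
  intro N m ε lam R hε h0 h1 hm hmN hst hR p r hpr
  have hS := h N m ε lam R hε h0 h1 hm hmN hst hR
  obtain ⟨x, y, hxy, hw, hn⟩ := solve hS p r hpr
  refine ⟨Rᵀ *ᵥ x + R *ᵥ y, hw, hn, ?_⟩
  have hp : 0 < 1 - lam := by linarith
  set w := Rᵀ *ᵥ x + R *ᵥ y with hwdef
  have hs := hS x y hxy
  rw [← hwdef] at hs
  set κ := kap m lam with hκ
  set Q := p ⬝ᵥ p + r ⬝ᵥ r with hQ
  have b1 : ∑ i, |w i| ≤ 3 / (1 - lam) * (∑ j, |x j| + ∑ j, |y j|) := by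
    have c1 := l1_mulVec (M := Rᵀ) (fun j => row_le h0 h1 hR j) x
    have c2 := l1_mulVec (M := R) (fun j => col_le h0 h1 hR j) y
    have c3 : ∑ i, |w i| ≤ ∑ i, |(Rᵀ *ᵥ x) i| + ∑ i, |(R *ᵥ y) i| := by
      rw [← sum_add_distrib]
      exact sum_le_sum fun i _ => abs_add_le _ _
    rw [mul_add]
    linarith
  have b2 : (∑ j, |x j| + ∑ j, |y j|) ^ 2 ≤ 2 * m * (x ⬝ᵥ x + y ⬝ᵥ y) := by
    have c1 := l1_sq (m := m) fun i hi => (hxy i hi).1
    have c2 := l1_sq (m := m) fun i hi => (hxy i hi).2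
    nlinarith [sq_nonneg (∑ j, |x j| - ∑ j, |y j|)]
  have b3 : x ⬝ᵥ x + y ⬝ᵥ y ≤ κ ^ 4 * Q := by
    calc x ⬝ᵥ x + y ⬝ᵥ y ≤ κ ^ 2 * (w ⬝ᵥ w) := hs
      _ ≤ κ ^ 2 * (κ ^ 2 * Q) := mul_le_mul_of_nonneg_left hn (sq_nonneg _)
      _ = κ ^ 4 * Q := by ring
  have hm0 : (0 : ℝ) ≤ m := Nat.cast_nonneg m
  have b4 : (∑ i, |w i|) ^ 2 ≤ (3 / (1 - lam) * (∑ j, |x j| + ∑ j, |y j|)) ^ 2 :=
    pow_le_pow_left₀ (sum_nonneg fun i _ => abs_nonneg _) b1 2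
  calc (∑ i, |w i|) ^ 2 ≤ (3 / (1 - lam)) ^ 2 * (∑ j, |x j| + ∑ j, |y j|) ^ 2 := by
        rw [← mul_pow]
        exact b4
    _ ≤ (3 / (1 - lam)) ^ 2 * (2 * m * (x ⬝ᵥ x + y ⬝ᵥ y)) :=
        mul_le_mul_of_nonneg_left b2 (sq_nonneg _)
    _ ≤ (3 / (1 - lam)) ^ 2 * (2 * m * (κ ^ 4 * Q)) :=
        mul_le_mul_of_nonneg_left (mul_le_mul_of_nonneg_left b3 (by positivity)) (sq_nonneg _)
    _ = 18 * m / (1 - lam) ^ 2 * κ ^ 4 * Q := by
        field_simp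
        ring

end Pool.Agent.Q285.PE.DW
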