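import Pool.Agent.Q234.PE.Stm
import Pool.Agent.Q299.PL.GN

/-!
# Project PE, job GN: the robust lower bound for combinations of words

After `Q299/PL/GN.lean` (the case of a vacuum vector).
-/

set_option autoImplicit false
set_option linter.unusedSectionVars false

open scoped BigOperators Matrix
open Finset Pool.Agent.TH235.PP

namespace Pool.Agent.Q285.PE.GN

open Pool.Agent.Q234.PL Pool.Agent.Q234.PE

section norms

variable {S : Type} [Fintype S]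

/-- the norm -/
noncomputable def nm (f : S → ℂ) : ℝ := Real.sqrt (normSq f)

theorem nm_eq (f : S → ℂ) : nm f = ‖(WithLp.toLp 2 f : EuclideanSpace ℂ S)‖ := by
  rw [EuclideanSpace.norm_eq]
  rfl

theorem nm_nonneg (f : S → ℂ) : 0 ≤ nm f := Real.sqrt_nonneg _

theorem nm_add (f g : S → ℂ) : nm (f + g) ≤ nm f + nm g := by
  rw [nm_eq, nm_eq, nm_eq, WithLp.toLp_add]
  exact norm_add_le _ _

theorem nm_sub (f g : S → ℂ) : nm (f - g) ≤ nm f + nm g := by
  rw [nm_eq, nm_eq, nm_eq, WithLp.toLp_sub]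
  exact norm_sub_le _ _

theorem nm_smul (a : ℂ) (f : S → ℂ) : nm (a • f) = ‖a‖ * nm f := by
  rw [nm_eq, nm_eq, WithLp.toLp_smul, norm_smul]

theorem nm_zero : nm (0 : S → ℂ) = 0 := by
  rw [nm_eq, WithLp.toLp_zero, norm_zero]

theorem nm_sum {ι : Type} (s : Finset ι) (F : ι → S → ℂ) :
    nm (∑ i ∈ s, F i) ≤ ∑ i ∈ s, nm (F i) := by
  classical
  induction s using Finset.induction_on with
  | empty => rw [sum_empty, sum_empty, nm_zero]
  | insert a s ha ih =>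
    rw [sum_insert ha, sum_insert ha]
    exact (nm_add _ _).trans (by linarith)

variable [DecidableEq S]

theorem nm_unitary {U : Matrix S S ℂ} (h1 : U.IsHermitian) (h2 : U * U = 1) (f : S → ℂ) :
    nm (U *ᵥ f) = nm f := by
  unfold nm
  rw [Pool.Agent.Q299.PL.GN.normSq_unitary U h1 h2]

theorem nm_bound {U : Matrix S S ℂ} {κ : ℝ} (hκ : 0 ≤ κ)
    (h : ∀ f, normSq (U *ᵥ f) ≤ (2 * κ) ^ 2 * normSq f) (f : S → ℂ) :
    nm (U *ᵥ f) ≤ 2 * κ * nm f := by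
  unfold nm
  rw [← Real.sqrt_sq (by positivity : 0 ≤ 2 * κ), ← Real.sqrt_mul (by positivity)]
  exact Real.sqrt_le_sqrt (h f)

theorem nm_word {K : ℕ} (γ : Fin K → Matrix S S ℂ)
    (h : ∀ k, (γ k).IsHermitian ∧ γ k * γ k = 1) (s : Fin K → Bool) (f : S → ℂ) :
    nm (word γ s *ᵥ f) = nm f := by
  induction K generalizing f with
  | zero => simp [word]
  | succ K ih =>
    obtain ⟨s', x, rfl⟩ : ∃ (s' : Fin K → Bool) (x : Bool),
        s = (Fin.snoc s' x : Fin (K + 1) → Bool) :=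
      ⟨fun k => s k.castSucc, s (Fin.last K), (Fin.snoc_init_self s).symm⟩
    rw [Pool.Agent.Q299.PL.GN.word_succ, ← Matrix.mulVec_mulVec, ih _ fun k => h k.castSucc]
    cases x
    · simp
    · simp only [if_true]
      exact nm_unitary (h _).1 (h _).2 f

theorem nm_comb {K : ℕ} (γ : Fin K → Matrix S S ℂ)
    (h : ∀ k, (γ k).IsHermitian ∧ γ k * γ k = 1) (c : (Fin K → Bool) → ℂ) (f : S → ℂ) :
    nm ((∑ s, c s • word γ s) *ᵥ f) ≤ (∑ s, ‖c s‖) * nm f := by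
  rw [Matrix.sum_mulVec, sum_mul]
  refine (nm_sum _ _).trans (sum_le_sum fun s _ => ?_)
  rw [Matrix.smul_mulVec, nm_smul, nm_word γ h]

end norms

/-- the sign of a word -/
noncomputable def sw {K : ℕ} (e : Fin K → ℂ) (s : Fin K → Bool) : ℂ :=
  ∏ k, if s k then e k else 1

theorem sw_sq {K : ℕ} {e : Fin K → ℂ} (he : ∀ k, e k = 1 ∨ e k = -1) (s : Fin K → Bool) :
    sw e s * sw e s = 1 := by
  unfold sw
  rw [← prod_mul_distrib]
  refine prod_eq_one fun k _ => ?_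
  split_ifs
  · rcases he k with h | h <;> rw [h] <;> norm_num
  · norm_num

theorem sw_norm {K : ℕ} {e : Fin K → ℂ} (he : ∀ k, e k = 1 ∨ e k = -1) (s : Fin K → Bool) :
    ‖sw e s‖ = 1 := by
  have h : ‖sw e s‖ * ‖sw e s‖ = 1 := by rw [← norm_mul, sw_sq he, norm_one]
  have h0 := norm_nonneg (sw e s)
  nlinarith

section W

variable {n : Type} [Fintype n] [DecidableEq n]

theorem sw_succ {K : ℕ} (e : Fin (K + 1) → ℂ) (s : Fin K → Bool) (x : Bool) :
    sw e (Fin.snoc s x : Fin (K + 1) → Bool) =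
      sw (fun k => e k.castSucc) s * (if x then e (Fin.last K) else 1) := by
  unfold sw
  rw [Fin.prod_univ_castSucc]
  simp

theorem comm_word {K : ℕ} (γ : Fin K → Matrix n n ℂ) (b : Matrix n n ℂ) (e : Fin K → ℂ)
    (h : ∀ j, b * γ j = e j • (γ j * b)) (s : Fin K → Bool) :
    b * word γ s = sw e s • (word γ s * b) := by
  induction K with
  | zero => simp [word, sw]
  | succ K ih =>
    obtain ⟨s', x, rfl⟩ : ∃ (s' : Fin K → Bool) (x : Bool),
        s = (Fin.snoc s' x : Fin (K + 1) → Bool) :=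
      ⟨fun k => s k.castSucc, s (Fin.last K), (Fin.snoc_init_self s).symm⟩
    rw [Pool.Agent.Q299.PL.GN.word_succ, sw_succ, ← mul_assoc,
      ih (fun k => γ k.castSucc) (fun k => e k.castSucc) (fun j => h _) s']
    cases x
    · simp
    · simp only [if_true, Matrix.smul_mul, Matrix.mul_assoc, h, Matrix.mul_smul]
      rw [smul_smul]

theorem main_aux (φ : n → ℂ) (κ : ℝ) (hκ : 0 ≤ κ) (K : ℕ) :
    ∀ (γ b : Fin K → Matrix n n ℂ) (ζ : Fin K → ℂ) (sg : Fin K → Fin K → ℂ),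
    (∀ k, (γ k).IsHermitian ∧ γ k * γ k = 1) →
    (∀ j k, j < k → (sg k j = 1 ∨ sg k j = -1) ∧ γ k * γ j = sg k j • (γ j * γ k) ∧
      b k * γ j = sg k j • (γ j * b k)) →
    (∀ k, ‖ζ k‖ = 1 ∧ b k * γ k + γ k * b k = (2 * ζ k) • (1 : Matrix n n ℂ) ∧
      ∀ f, normSq (b k *ᵥ f) ≤ (2 * κ) ^ 2 * normSq f) →
    ∀ c : (Fin K → Bool) → ℂ,
      (∑ s, ‖c s‖) * nm φ ≤ (1 + 2 * κ) ^ K * nm ((∑ s, c s • word γ s) *ᵥ φ) +
        (∑ s, ‖c s‖) * ∑ k : Fin K, (1 + 2 * κ) ^ (k : ℕ) * nm (b k *ᵥ φ) := by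
  induction K with
  | zero =>
    intro γ b ζ sg _ _ _ c
    rw [Fintype.sum_unique, Fintype.sum_unique]
    have : ∀ s : Fin 0 → Bool, word γ s = 1 := fun s => by simp [word]
    rw [this, Matrix.smul_mulVec, Matrix.one_mulVec, nm_smul]
    simp
  | succ K ih =>
    intro γ b ζ sg hγ hsg hb c
    set γ' : Fin K → Matrix n n ℂ := fun k => γ k.castSucc with hγ'
    have hγ'1 : ∀ k, (γ' k).IsHermitian ∧ γ' k * γ' k = 1 := fun k => hγ _
    have IH := ih γ' (fun k => b k.castSucc) (fun k => ζ k.castSucc)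
      (fun k j => sg k.castSucc j.castSucc) hγ'1
      (fun j k hjk => hsg _ _ (Fin.castSucc_lt_castSucc_iff.mpr hjk)) (fun k => hb _)
    set g := γ (Fin.last K) with hg
    set B := b (Fin.last K) with hB
    set z := ζ (Fin.last K) with hz
    set e : Fin K → ℂ := fun j => sg (Fin.last K) j.castSucc with he
    have he1 : ∀ k, e k = 1 ∨ e k = -1 := fun k => (hsg _ _ (Fin.castSucc_lt_last k)).1
    have hgγ : ∀ j, g * γ' j = e j • (γ' j * g) := fun j => (hsg _ _ (Fin.castSucc_lt_last j)).2.1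
    have hBγ : ∀ j, B * γ' j = e j • (γ' j * B) := fun j => (hsg _ _ (Fin.castSucc_lt_last j)).2.2
    obtain ⟨hz1, hBg, hBn⟩ := hb (Fin.last K)
    set c0 : (Fin K → Bool) → ℂ := fun s => c (Fin.snoc s false : Fin (K + 1) → Bool) with hc0
    set c1 : (Fin K → Bool) → ℂ := fun s => c (Fin.snoc s true : Fin (K + 1) → Bool) with hc1
    set O1 := ∑ s, c0 s • word γ' s with hO1
    set O1' := ∑ s, (sw e s * c0 s) • word γ' s with hO1'
    set O2 := ∑ s, c1 s • word γ' s with hO2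
    set O2' := ∑ s, (sw e s * c1 s) • word γ' s with hO2'
    have hO : ∑ s, c s • word γ s = O1 + O2 * g := by
      rw [Pool.Agent.Q299.PL.GN.sum_snoc]
      congr 1
      · refine sum_congr rfl fun s _ => ?_
        rw [Pool.Agent.Q299.PL.GN.word_succ]; simp [hc0, hγ']
      · rw [hO2, sum_mul]
        refine sum_congr rfl fun s _ => ?_
        rw [Pool.Agent.Q299.PL.GN.word_succ]; simp [hc1, hγ', hg]
    have hb1 : B * O1 = O1' * B := by
      rw [hO1, hO1', mul_sum, sum_mul]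
      refine sum_congr rfl fun s _ => ?_
      rw [Matrix.mul_smul, comm_word γ' B e hBγ, smul_smul, Matrix.smul_mul, mul_comm (c0 s)]
    have hb2 : B * O2' = O2 * B := by
      rw [hO2, hO2', mul_sum, sum_mul]
      refine sum_congr rfl fun s _ => ?_
      rw [Matrix.mul_smul, comm_word γ' B e hBγ, smul_smul, Matrix.smul_mul]
      congr 1
      linear_combination c1 s * sw_sq he1 s
    have hg2 : g * O2' = O2 * g := by
      rw [hO2, hO2', mul_sum, sum_mul]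
      refine sum_congr rfl fun s _ => ?_
      rw [Matrix.mul_smul, comm_word γ' g e hgγ, smul_smul, Matrix.smul_mul]
      congr 1
      linear_combination c1 s * sw_sq he1 s
    set χ := (∑ s, c s • word γ s) *ᵥ φ with hχ
    have hχ1 : χ = O1 *ᵥ φ + g *ᵥ (O2' *ᵥ φ) := by
      rw [hχ, hO, Matrix.add_mulVec, Matrix.mulVec_mulVec, hg2]
    -- the key identity
    have hBχ : (2 * z) • (O2' *ᵥ φ) = B *ᵥ χ - (O1' *ᵥ (B *ᵥ φ) - g *ᵥ (O2 *ᵥ (B *ᵥ φ))) := by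
      have e1 : B * g = (2 * z) • (1 : Matrix n n ℂ) - g * B := by rw [← hBg]; abel
      have e2 : B *ᵥ χ = O1' *ᵥ (B *ᵥ φ) + ((2 * z) • (O2' *ᵥ φ) - g *ᵥ (O2 *ᵥ (B *ᵥ φ))) := by
        rw [hχ1, Matrix.mulVec_add, Matrix.mulVec_mulVec, hb1, Matrix.mulVec_mulVec,
          Matrix.mulVec_mulVec, e1, Matrix.sub_mul, Matrix.smul_mul, Matrix.one_mul,
          Matrix.sub_mulVec, Matrix.smul_mulVec, Matrix.mul_assoc g B O2', hb2,
          ← Matrix.mulVec_mulVec, ← Matrix.mulVec_mulVec, ← Matrix.mulVec_mulVec]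
      rw [e2]
      abel
    set N0 := ∑ s, ‖c0 s‖ with hN0
    set N1 := ∑ s, ‖c1 s‖ with hN1
    have hN : ∑ s, ‖c s‖ = N0 + N1 := Pool.Agent.Q299.PL.GN.sum_snoc _
    have s1 : ∑ s, ‖sw e s * c1 s‖ = N1 :=
      sum_congr rfl fun s _ => by rw [norm_mul, sw_norm he1, one_mul]
    have s0 : ∑ s, ‖sw e s * c0 s‖ = N0 :=
      sum_congr rfl fun s _ => by rw [norm_mul, sw_norm he1, one_mul]
    have b1 : nm (O1' *ᵥ (B *ᵥ φ)) ≤ N0 * nm (B *ᵥ φ) := by
      have := nm_comb γ' hγ'1 (fun s => sw e s * c0 s) (B *ᵥ φ)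
      rwa [s0] at this
    have b2 : nm (g *ᵥ (O2 *ᵥ (B *ᵥ φ))) ≤ N1 * nm (B *ᵥ φ) := by
      rw [nm_unitary (hγ _).1 (hγ _).2]
      exact nm_comb γ' hγ'1 c1 (B *ᵥ φ)
    have b3 : nm (B *ᵥ χ) ≤ 2 * κ * nm χ := nm_bound hκ hBn χ
    have b4 : 2 * nm (O2' *ᵥ φ) ≤ 2 * κ * nm χ + (N0 + N1) * nm (B *ᵥ φ) := by
      have h1 : nm ((2 * z) • (O2' *ᵥ φ)) = 2 * nm (O2' *ᵥ φ) := by
        rw [nm_smul, norm_mul, hz1, mul_one]
        norm_num
      rw [← h1, hBχ]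
      have h2 := nm_sub (B *ᵥ χ) (O1' *ᵥ (B *ᵥ φ) - g *ᵥ (O2 *ᵥ (B *ᵥ φ)))
      have h3 := nm_sub (O1' *ᵥ (B *ᵥ φ)) (g *ᵥ (O2 *ᵥ (B *ᵥ φ)))
      linarith
    have b5 : nm (O1 *ᵥ φ) ≤ nm χ + nm (O2' *ᵥ φ) := by
      have e3 : O1 *ᵥ φ = χ - g *ᵥ (O2' *ᵥ φ) := by rw [hχ1]; abel
      rw [e3, ← nm_unitary (hγ (Fin.last K)).1 (hγ (Fin.last K)).2 (O2' *ᵥ φ)]
      exact nm_sub _ _
    have I0 := IH c0
    have I1 := IH (fun s => sw e s * c1 s)
    rw [s1] at I1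
    rw [← hO1, ← hN0] at I0
    rw [← hO2'] at I1
    set G := (1 + 2 * κ) ^ K with hG
    have hG0 : 0 ≤ G := by positivity
    rw [hN, Fin.sum_univ_castSucc]
    simp only [Fin.val_castSucc, Fin.val_last]
    set er := ∑ k : Fin K, (1 + 2 * κ) ^ (k : ℕ) * nm (b k.castSucc *ᵥ φ) with her
    have f1 : G * (nm (O1 *ᵥ φ) + nm (O2' *ᵥ φ)) ≤
        G * ((1 + 2 * κ) * nm χ + (N0 + N1) * nm (B *ᵥ φ)) :=
      mul_le_mul_of_nonneg_left (by linarith) hG0
    have f2 : (1 + 2 * κ) ^ (K + 1) = G * (1 + 2 * κ) := pow_succ _ _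
    rw [f2]
    calc (N0 + N1) * nm φ = N0 * nm φ + N1 * nm φ := by ring
      _ ≤ (G * nm (O1 *ᵥ φ) + N0 * er) + (G * nm (O2' *ᵥ φ) + N1 * er) := add_le_add I0 I1
      _ = G * (nm (O1 *ᵥ φ) + nm (O2' *ᵥ φ)) + (N0 + N1) * er := by ring
      _ ≤ G * ((1 + 2 * κ) * nm χ + (N0 + N1) * nm (B *ᵥ φ)) + (N0 + N1) * er := by linarith
      _ = G * (1 + 2 * κ) * nm χ + (N0 + N1) * (er + G * nm (B *ᵥ φ)) := by ring

end W

/-- **GNSs** -/
theorem main : GNSs := by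
  intro n _ _ K γ b ζ sg φ κ hκ h1 h2 h3 c
  exact main_aux φ κ hκ K γ b ζ sg h1 h2 h3 c

end Pool.Agent.Q285.PE.GN
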