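import Pool.Agent.Q44.PE.Stm

/-!
# Project PE, job DE: the norms of the prime numbers are bounded below
-/

set_option autoImplicit false

namespace Pool.Agent.Q285.PE.DE

open Pool.Agent.Q44.PE

theorem main : E_del := by
  intro L _ _ _
  by_cases h : ∃ p : ℕ, p.Prime ∧ ‖(p : L)‖ < 1
  · obtain ⟨p, hp, hp1⟩ := h
    refine ⟨‖(p : L)‖, ?_, ?_⟩
    · rw [norm_pos_iff]
      exact_mod_cast hp.ne_zero
    · intro ℓ hℓ
      by_contra hcon
      rw [not_le] at hcon
      have hne : ℓ ≠ p := by
        rintro rfl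
        exact lt_irrefl _ hcon
      have hcop : Nat.Coprime ℓ p := (Nat.coprime_primes hℓ hp).2 hne
      have hb := Nat.gcd_eq_gcd_ab ℓ p
      rw [Nat.coprime_iff_gcd_eq_one.1 hcop] at hb
      have hb2 : (1 : L) = (ℓ : L) * (Nat.gcdA ℓ p : ℤ) + (p : L) * (Nat.gcdB ℓ p : ℤ) := by
        have := congrArg (fun z : ℤ => (z : L)) hb
        push_cast at this
        exact this
      have h1 : ‖(ℓ : L) * ((Nat.gcdA ℓ p : ℤ) : L)‖ < 1 := by
        rw [norm_mul]
        have := IsUltrametricDist.norm_intCast_le_one L (Nat.gcdA ℓ p)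
        have h0 := norm_nonneg (ℓ : L)
        nlinarith
      have h2 : ‖(p : L) * ((Nat.gcdB ℓ p : ℤ) : L)‖ < 1 := by
        rw [norm_mul]
        have := IsUltrametricDist.norm_intCast_le_one L (Nat.gcdB ℓ p)
        have h0 := norm_nonneg (p : L)
        nlinarith
      have h3 : ‖(1 : L)‖ < 1 := by
        rw [hb2]
        exact (IsUltrametricDist.norm_add_le_max _ _).trans_lt (max_lt h1 h2)
      rw [norm_one] at h3
      exact lt_irrefl _ h3
  · push Not at h
    exact ⟨1, one_pos, h⟩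

end Pool.Agent.Q285.PE.DE
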