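import Pool.Agent.Q44.PE.Stm

/-!
# Project PE, job PR: maps near the identity fix their periodic points
-/

set_option autoImplicit false

namespace Pool.Agent.Q285.PE.PR

open Pool.Agent.Q44.PE

variable {L : Type} [NormedField L] [IsUltrametricDist L] {n : ℕ}

lemma nadd (a b : Fin n → L) {r : ℝ} (ha : ‖a‖ ≤ r) (hb : ‖b‖ ≤ r) : ‖a + b‖ ≤ r :=
  (IsUltrametricDist.norm_add_le_max a b).trans (max_le ha hb)

/-- the iterates of a map near the identity -/
lemma iter {ε : ℝ} (he0 : 0 < ε) (he1 : ε < 1) {𝒳 : Set (Fin n → L)} {u : 𝒳 → 𝒳} (hu : NearId ε 𝒳 u) (m : ℕ) :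
    NearId ε 𝒳 u^[m] := by
  have h0 : ∀ x : 𝒳, ‖(u^[m] x : Fin n → L) - x‖ ≤ ε := by
    induction m with
    | zero =>
      intro x
      simpa using he0.le
    | succ m ih =>
      intro x
      have h1 : ((u^[m + 1] x : 𝒳) : Fin n → L) - x = ((u (u^[m] x) : 𝒳) - (u^[m] x : 𝒳)) + (((u^[m] x : 𝒳) : Fin n → L) - x) := by
        rw [Function.iterate_succ_apply']
        abel
      rw [h1]
      exact nadd _ _ (hu.1 _) (ih x)
  refine ⟨h0, ?_⟩
  clear h0
  induction m with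
  | zero =>
    intro x y _
    have h1 : (((u^[0] y : 𝒳) : Fin n → L) - (u^[0] x : 𝒳)) - ((y : Fin n → L) - x) = 0 := by
      simp
    rw [h1, norm_zero]
    positivity
  | succ m ih =>
    intro x y hxy
    have h2 := ih x y hxy
    have h3 : ‖((u^[m] y : 𝒳) : Fin n → L) - (u^[m] x : 𝒳)‖ ≤ ‖(y : Fin n → L) - x‖ := by
      have e1 : ((u^[m] y : 𝒳) : Fin n → L) - (u^[m] x : 𝒳) = ((((u^[m] y : 𝒳) : Fin n → L) - (u^[m] x : 𝒳)) - ((y : Fin n → L) - x)) + ((y : Fin n → L) - x) := by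
        abel
      rw [e1]
      refine nadd _ _ (h2.trans ?_) le_rfl
      have := norm_nonneg ((y : Fin n → L) - x)
      nlinarith
    have h4 := hu.2 (u^[m] x) (u^[m] y) (h3.trans hxy)
    have h1 : (((u^[m + 1] y : 𝒳) : Fin n → L) - (u^[m + 1] x : 𝒳)) - ((y : Fin n → L) - x) =
        ((((u (u^[m] y) : 𝒳) : Fin n → L) - (u (u^[m] x) : 𝒳)) - (((u^[m] y : 𝒳) : Fin n → L) - (u^[m] x : 𝒳))) +
        ((((u^[m] y : 𝒳) : Fin n → L) - (u^[m] x : 𝒳)) - ((y : Fin n → L) - x)) := by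
      rw [Function.iterate_succ_apply', Function.iterate_succ_apply']
      abel
    rw [h1]
    refine nadd _ _ (h4.trans ?_) h2
    exact mul_le_mul_of_nonneg_left h3 he0.le

lemma prim {ε : ℝ} (he0 : 0 < ε) (he1 : ε < 1) {𝒳 : Set (Fin n → L)} {g : 𝒳 → 𝒳} (hg : NearId ε 𝒳 g) {ℓ : ℕ} (hℓ : ε < ‖(ℓ : L)‖)
    (x : 𝒳) (hx : g^[ℓ] x = x) : g x = x := by
  have h1 : ∀ j : ℕ, ‖(((g^[j + 1] x : 𝒳) : Fin n → L) - (g^[j] x : 𝒳)) - (((g x : 𝒳) : Fin n → L) - x)‖ ≤ ε * ‖((g x : 𝒳) : Fin n → L) - x‖ := by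
    intro j
    have h2 := (iter he0 he1 hg j).2 x (g x) (hg.1 x)
    rw [← Function.iterate_succ_apply] at h2
    exact h2
  have h2 : ∑ j ∈ Finset.range ℓ, ((((g^[j + 1] x : 𝒳) : Fin n → L) - (g^[j] x : 𝒳)) - (((g x : 𝒳) : Fin n → L) - x)) =
      - ((ℓ : L) • (((g x : 𝒳) : Fin n → L) - x)) := by
    rw [Finset.sum_sub_distrib, Finset.sum_range_sub (fun j => ((g^[j] x : 𝒳) : Fin n → L)), hx, Finset.sum_const, Finset.card_range,
      Nat.cast_smul_eq_nsmul]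
    simp
  have h3 : ‖∑ j ∈ Finset.range ℓ, ((((g^[j + 1] x : 𝒳) : Fin n → L) - (g^[j] x : 𝒳)) - (((g x : 𝒳) : Fin n → L) - x))‖ ≤
      ε * ‖((g x : 𝒳) : Fin n → L) - x‖ := by
    have hgen : ∀ m : ℕ, ‖∑ j ∈ Finset.range m, ((((g^[j + 1] x : 𝒳) : Fin n → L) - (g^[j] x : 𝒳)) - (((g x : 𝒳) : Fin n → L) - x))‖ ≤
        ε * ‖((g x : 𝒳) : Fin n → L) - x‖ := by
      intro m
      induction m with
      | zero =>
        rw [Finset.range_zero, Finset.sum_empty, norm_zero]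
        positivity
      | succ m ih =>
        rw [Finset.sum_range_succ]
        exact nadd _ _ ih (h1 m)
    exact hgen ℓ
  rw [h2, norm_neg, norm_smul] at h3
  have h4 : ‖((g x : 𝒳) : Fin n → L) - x‖ = 0 := by
    by_contra hne
    have hpos : 0 < ‖((g x : 𝒳) : Fin n → L) - x‖ := lt_of_le_of_ne (norm_nonneg _) (Ne.symm hne)
    exact absurd (le_of_mul_le_mul_right h3 hpos) (not_le.2 hℓ)
  exact Subtype.ext (sub_eq_zero.1 (norm_eq_zero.1 h4))

theorem main : E_per := by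
  intro L _ _ n ε he0 he1 hℓ 𝒳 u hu x k hk hx
  induction k using Nat.strong_induction_on with
  | _ k ih =>
  rcases Nat.lt_or_ge 1 k with h1 | h1
  · have hp : (Nat.minFac k).Prime := Nat.minFac_prime (by omega)
    obtain ⟨m, hm⟩ := Nat.minFac_dvd k
    have hm0 : 0 < m := by
      rcases Nat.eq_zero_or_pos m with h0 | h0
      · rw [h0, mul_zero] at hm
        omega
      · exact h0
    have hmk : m < k := by
      have h2 := hp.two_le
      rw [hm]
      nlinarith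
    refine ih m hmk hm0 ?_
    refine prim he0 he1 (iter he0 he1 hu m) (hℓ _ hp) x ?_
    rw [← Function.iterate_mul, mul_comm, ← hm]
    exact hx
  · have : k = 1 := by omega
    rw [this, Function.iterate_one] at hx
    exact hx

end Pool.Agent.Q285.PE.PR
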